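import Pool.Agent.T4h91.HR.Fin

set_option autoImplicit false

/-!
# MP_d5a1e1_nt: bases of order `h` which are biased with respect to many moduli

Let `h ≥ 2`, let `r_{A,h}(n)` be the number of unordered representations of `n` as a sum of `h` elements
of `A`, and `seg A N = A ∩ [1, N]`.

A function `φ : ℕ → ℂ` is primitive modulo `q` (`Prim q φ`) if it has period `q`, mean square at most
one, and its sums over the residue classes modulo `d` vanish for all proper divisors `d` of `q`.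
Examples: primitive Dirichlet characters; for a prime `q` all functions with mean zero and mean square
at most one.

1. If `r_{A,h} ≤ K` and `φ_q` is primitive modulo `q` for all `q`, then
   `∑_{q ≤ √N} |∑_{a ∈ A, a ≤ N} φ_q(a)|^(2h) / φ(q)^(h-1) ≤ 6 (h + 1) h! K N |seg A N|^h`.
2. Fixed biases: let `A` be an asymptotic basis of order `h` and let
   `|∑_{a ≤ N, a ∈ A} φ_q(a)| ≥ δ_q |seg A N|` for all large `N`. If `∑_q δ_q^(2h) / φ(q)^(h-1) = ∞`, then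
   `r_{A,h}` is unbounded.
3. Let `Q_N ⊆ [1, √N]`, `φ_q` primitive modulo `q` and `δ_q ≥ 0` for `q ∈ Q_N` (also depending on `N`), and
   `L_N = ∑_{q ∈ Q_N} δ_q^(2h) / φ(q)^(h-1) → ∞`. If `A` is an asymptotic basis of order `h` such that for
   infinitely many `N` at least `ε |seg A N|` elements `a` of `seg A N` are biased, i.e.
   `|∑_{q ∈ Q_N} δ_q^(2h-1) φ_q(a) / φ(q)^(h-1)| ≥ c L_N`, then `r_{A,h}` is unbounded.
4. For every prime `p` let `S_p` be a set of `σ_p p` residue classes modulo `p` such that at least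
   `(σ_p + β_p) |seg A N|` elements of `seg A N` are in `S_p` modulo `p`, for all large `N`. If `A` is an
   asymptotic basis of order `h` and `∑_p β_p^(2h) / ((σ_p (1 - σ_p))^h (p - 1)^(h-1)) = ∞`, then `r_{A,h}`
   is unbounded.
5. In particular: if `A` is an asymptotic basis of order `h` and for the primes `p` in a set `P` the elements
   of `A` are in `s_p ≤ p / 2` residue classes modulo `p`, where `∑_{p ∈ P} p / s_p ^ h = ∞`, then `r_{A,h}` is
   unbounded.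
6. In particular: if for infinitely many primes `p` the elements of the asymptotic basis `A` of order `h` are
   in at most `C p^(1/h)` residue classes modulo `p`, then `r_{A,h}` is unbounded. (The elements of a basis of
   order `h` are in at least `p^(1/h)` residue classes modulo `p`.)

For `h = 2` constant biases modulo all `q` are allowed in 2 and 3; for `h ≥ 3` sparse sets of moduli with a
strong bias, as in 6, are the main case (Gallagher's larger sieve).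

Method: large sieve for the coefficients of the `h`-th power of the exponential sum of `A`, duality,
Jensen's inequality.
-/

open Finset Filter Topology

namespace Pool.Agent.Results.MP_d5a1e1_nt.BiasedBases

/-- the number of unordered representations of `n` as a sum of `h` elements of `A` -/
noncomputable def urep (A : Set ℕ) (h n : ℕ) : ℕ :=
  {s : Multiset ℕ | Multiset.card s = h ∧ (∀ a ∈ s, a ∈ A) ∧ s.sum = n}.ncard

/-- `A` is an asymptotic basis of order `h` -/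
def IsBasis (h : ℕ) (A : Set ℕ) : Prop :=
  ∃ N : ℕ, ∀ n : ℕ, N ≤ n → ∃ s : Multiset ℕ, Multiset.card s = h ∧ (∀ a ∈ s, a ∈ A) ∧ s.sum = n

/-- `r_{A,h}` is unbounded -/
def Unbdd (h : ℕ) (A : Set ℕ) : Prop := ∀ K : ℕ, ∃ n, K < urep A h n

open Classical in
/-- the elements of `A` in `[1, N]` -/
noncomputable def seg (A : Set ℕ) (N : ℕ) : Finset ℕ := (Icc 1 N).filter (· ∈ A)

/-- `φ` is a primitive function modulo `q`: it has period `q` and mean square at most one, and for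
every proper divisor `d` of `q` its sums over the residue classes modulo `d` vanish. -/
structure Prim (q : ℕ) (φ : ℕ → ℂ) : Prop where
  per : ∀ n, φ (n % q) = φ n
  msq : ∑ x ∈ range q, ‖φ x‖ ^ 2 ≤ q
  prim : ∀ d : ℕ, d ∣ q → d ≠ q → ∀ y : ℕ, ∑ x ∈ (range q).filter (fun x => x % d = y), φ x = 0

/-- `L = ∑ δ_q^(2h) / φ(q)^(h-1)` -/
noncomputable def LL (h : ℕ) (Q : Finset ℕ) (δ : ℕ → ℝ) : ℝ :=
  ∑ q ∈ Q, δ q ^ (2 * h) / (Nat.totient q : ℝ) ^ (h - 1)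

/-- `∑ δ_q^(2h-1) φ_q(n) / φ(q)^(h-1)` -/
noncomputable def SS (h : ℕ) (Q : Finset ℕ) (δ : ℕ → ℝ) (φ : ℕ → ℕ → ℂ) (n : ℕ) : ℂ :=
  ∑ q ∈ Q, ((δ q ^ (2 * h - 1) / (Nat.totient q : ℝ) ^ (h - 1) : ℝ) : ℂ) * φ q n

theorem toP {q : ℕ} {φ : ℕ → ℂ} (h : Prim q φ) : Pool.Agent.T4h91.BR.Prim q φ :=
  ⟨h.per, h.msq, h.prim⟩

theorem ofP {q : ℕ} {φ : ℕ → ℂ} (h : Pool.Agent.T4h91.BR.Prim q φ) : Prim q φ :=
  ⟨h.per, h.msq, h.prim⟩

theorem result (h : ℕ) (hh : 2 ≤ h) :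
    -- examples of primitive functions
    (∀ (q : ℕ) (χ : DirichletCharacter ℂ q), 0 < q → χ.IsPrimitive →
      Prim q (fun n => χ (n : ZMod q))) ∧
    (∀ (p : ℕ) (ψ : ℕ → ℂ), p.Prime → (∀ n, ψ (n % p) = ψ n) → ∑ x ∈ range p, ψ x = 0 →
      ∑ x ∈ range p, ‖ψ x‖ ^ 2 ≤ p → Prim p ψ) ∧
    -- 1. the inequality
    (∀ (A : Set ℕ) (K N : ℕ) (φ : ℕ → ℕ → ℂ), (∀ n, urep A h n ≤ K) → (∀ q, 1 ≤ q → Prim q (φ q)) →
      ∑ q ∈ Icc 1 (Nat.sqrt N), ‖∑ a ∈ seg A N, φ q a‖ ^ (2 * h) / (Nat.totient q : ℝ) ^ (h - 1) ≤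
        6 * (h + 1) * N * (h.factorial * K * ((seg A N).card : ℝ) ^ h)) ∧
    -- 2. fixed biases
    (∀ (A : Set ℕ) (φ : ℕ → ℕ → ℂ) (δ : ℕ → ℝ), IsBasis h A → (∀ q, 0 ≤ δ q) →
      (∀ q, 0 < δ q → Prim q (φ q)) →
      (∀ q, 0 < δ q → ∀ᶠ N : ℕ in atTop, δ q * (seg A N).card ≤ ‖∑ a ∈ seg A N, φ q a‖) →
      (¬ Summable fun q : ℕ => δ q ^ (2 * h) / (Nat.totient q : ℝ) ^ (h - 1)) → Unbdd h A) ∧
    -- 3. many biased elements
    (∀ (A : Set ℕ) (Q : ℕ → Finset ℕ) (φ : ℕ → ℕ → ℕ → ℂ) (δ : ℕ → ℕ → ℝ) (c ε : ℝ),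
      IsBasis h A → (∀ N, Q N ⊆ Icc 1 (Nat.sqrt N)) → (∀ N, ∀ q ∈ Q N, Prim q (φ N q)) →
      (∀ N q, 0 ≤ δ N q) → Tendsto (fun N => LL h (Q N) (δ N)) atTop atTop → 0 < c → 0 < ε →
      (∃ᶠ N : ℕ in atTop, ε * ((seg A N).card : ℝ) ≤ (({a : ℕ | a ∈ A ∧ 1 ≤ a ∧ a ≤ N ∧
        c * LL h (Q N) (δ N) ≤ ‖SS h (Q N) (δ N) (φ N) a‖}.ncard : ℕ) : ℝ)) → Unbdd h A) ∧
    -- 4. biased sets of residue classes
    (∀ (A : Set ℕ) (S : ℕ → Finset ℕ) (β : ℕ → ℝ), IsBasis h A → (∀ p, S p ⊆ range p) →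
      (∀ p, 0 ≤ β p) →
      (∀ p : ℕ, p.Prime → ∀ᶠ N : ℕ in atTop, (((S p).card : ℝ) / p + β p) * (seg A N).card ≤
        (((seg A N).filter (fun a => a % p ∈ S p)).card : ℝ)) →
      (¬ Summable fun p : ℕ => if p.Prime then
        β p ^ (2 * h) / ((((S p).card : ℝ) / p * (1 - ((S p).card : ℝ) / p)) ^ h *
          ((p : ℝ) - 1) ^ (h - 1)) else 0) →
      Unbdd h A) ∧
    -- 5. few residue classes
    (∀ (A : Set ℕ) (P : Set ℕ) (S : ℕ → Finset ℕ), IsBasis h A → (∀ p ∈ P, p.Prime) →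
      (∀ p, S p ⊆ range p) → (∀ p ∈ P, ∀ a ∈ A, a % p ∈ S p) → (∀ p ∈ P, 2 * (S p).card ≤ p) →
      (¬ Summable (P.indicator fun p : ℕ => (p : ℝ) / ((S p).card : ℝ) ^ h)) → Unbdd h A) ∧
    -- 6. at most `C p^(1/h)` residue classes for infinitely many primes
    (∀ (A : Set ℕ) (P : Set ℕ) (S : ℕ → Finset ℕ) (C : ℝ), IsBasis h A → (∀ p ∈ P, p.Prime) →
      P.Infinite → (∀ p, S p ⊆ range p) → (∀ p ∈ P, ∀ a ∈ A, a % p ∈ S p) →
      (∀ p ∈ P, ((S p).card : ℝ) ^ h ≤ C * p) → Unbdd h A) := by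
  obtain ⟨k, rfl⟩ : ∃ k, h = k + 1 := ⟨h - 1, by omega⟩
  have e1 : k + 1 - 1 = k := rfl
  have e2 : 2 * (k + 1) - 1 = 2 * k + 1 := rfl
  refine ⟨?_, ?_, ?_, ?_, ?_, ?_, ?_, ?_⟩
  · intro q χ hq hχ
    exact ofP (Pool.Agent.T4h91.BR.prim_char hq χ hχ)
  · intro p ψ hp h1 h2 h3
    exact ofP (Pool.Agent.T4h91.BR.prim_prime hp ψ h1 h2 h3)
  · intro A K N φ hK hφ
    have h1 := Pool.Agent.T4h91.HR.upper k K A hK (F := seg A N) (N := N) (fun _ h => h)
      (Icc 1 (Nat.sqrt N)) (fun _ h => h) φ (fun q hq => toP (hφ q (mem_Icc.1 hq).1))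
    rw [e1]
    refine h1.trans (le_of_eq ?_)
    push_cast
    ring
  · intro A φ δ hA hδ hφ hb hdiv K
    exact Pool.Agent.T4h91.HR.fixed_h k A hA φ δ hδ (fun q hq => toP (hφ q hq)) hb hdiv K
  · intro A Q φ δ c ε hA hQ hφ hδ hL hc hε hB K
    exact Pool.Agent.T4h91.HR.biasedK k A hA Q hQ φ (fun N q hq => toP (hφ N q hq)) δ hδ hL c ε hc hε
      hB K
  · intro A S β hA hS hβ hb hdiv K
    exact Pool.Agent.T4h91.HR.sets_h k A hA S hS β hβ hb hdiv K
  · intro A P S hA hP hS hAS h2 hdiv K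
    exact Pool.Agent.T4h91.HR.few_h k A hA P hP S hS hAS h2 hdiv K
  · intro A P S C hA hP hPi hS hAS hC K
    exact Pool.Agent.T4h91.HR.thin_h k (by omega) A hA P hP hPi S hS hAS C hC K

end Pool.Agent.Results.MP_d5a1e1_nt.BiasedBases
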